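import Mathlib
import Pool.Agent.H510R2.Incr.Final

set_option autoImplicit false

open Finset Filter Asymptotics

namespace Pool.Agent.Results.MP_885588_nt.GrowthTwoOverK

/-- `r₁(A, n, k)`: the number of ordered `k`-tuples of elements of `A` with sum `n`. -/
noncomputable def r1 (A : Set ℕ) (n k : ℕ) : ℕ :=
  Nat.card {f : Fin k → ℕ // (∀ i, f i ∈ A) ∧ ∑ i, f i = n}

/-- `r₂(A, n, k)`: the number of tuples `a₁ ≤ a₂ ≤ … ≤ a_k` in `A` with sum `n`. -/
noncomputable def r2 (A : Set ℕ) (n k : ℕ) : ℕ :=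
  Nat.card {f : Fin k → ℕ // (∀ i, f i ∈ A) ∧ ∑ i, f i = n ∧ Monotone f}

/-- `r₃(A, n, k)`: the number of tuples `a₁ < a₂ < … < a_k` in `A` with sum `n`. -/
noncomputable def r3 (A : Set ℕ) (n k : ℕ) : ℕ :=
  Nat.card {f : Fin k → ℕ // (∀ i, f i ∈ A) ∧ ∑ i, f i = n ∧ StrictMono f}

/-- the counting function `A(n) = |{a ∈ A : 0 < a ≤ n}|` -/
noncomputable def cnt (A : Set ℕ) (n : ℕ) : ℕ := Nat.card {a : ℕ // a ∈ A ∧ 0 < a ∧ a ≤ n}

/-- `f` is increasing (not necessarily strictly) from some point on. -/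
def EvIncreasing (f : ℕ → ℕ) : Prop := ∃ n₀ : ℕ, ∀ n ≥ n₀, f n ≤ f (n + 1)

open Classical in
lemma card_AT (A : Set ℕ) (n : ℕ) : (H510R2.Incr.AT A n).card ≤ cnt A n + 1 := by
  have h1 : cnt A n = ((range (n + 1)).filter (fun a => a ∈ A ∧ 0 < a)).card := by
    unfold cnt
    rw [Nat.subtype_card]
    intro a
    rw [Finset.mem_filter, Finset.mem_range]
    constructor
    · rintro ⟨h1, h2, h3⟩; exact ⟨h2, h3, by omega⟩
    · rintro ⟨h1, h2, h3⟩; exact ⟨by omega, h1, h2⟩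
  rw [h1]
  refine le_trans (Finset.card_le_card (t := insert 0 ((range (n + 1)).filter
    (fun a => a ∈ A ∧ 0 < a))) ?_) (Finset.card_insert_le _ _)
  intro a ha
  rw [H510R2.Incr.mem_AT] at ha
  rw [Finset.mem_insert, Finset.mem_filter, Finset.mem_range]
  rcases Nat.eq_zero_or_pos a with h | h
  · exact Or.inl h
  · exact Or.inr ⟨by omega, ha.2, h⟩

lemma card_AT' (A : Set ℕ) (n : ℕ) : (H510R2.Incr.AT A n).card ≤ n + 1 := by
  classical
  have h : H510R2.Incr.AT A n ⊆ range (n + 1) := by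
    intro a ha
    rw [H510R2.Incr.mem_AT] at ha
    rw [Finset.mem_range]; omega
  simpa using Finset.card_le_card h

lemma r1_eq (A : Set ℕ) (n k : ℕ) : r1 A n k = H510R2.Incr.rP k (fun _ => True) A n := by
  unfold r1 H510R2.Incr.rP
  exact Nat.card_congr (Equiv.subtypeEquivRight fun f => by simp)

/-- If `A ⊆ ℕ₀` is infinite, `k ≥ 2`, and one of `r₁(A,n,k)`, `r₂(A,n,k)`, `r₃(A,n,k)` is
increasing in `n` from some point on, then `A(n) = O(n^{2/k-ε})` fails for every `ε > 0`. -/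
theorem result (k : ℕ) (hk : 2 ≤ k) (A : Set ℕ) (hA : A.Infinite)
    (h : EvIncreasing (fun n => r1 A n k) ∨ EvIncreasing (fun n => r2 A n k) ∨
      EvIncreasing (fun n => r3 A n k)) (ε : ℝ) (hε : 0 < ε) :
    ¬ (fun n : ℕ => (cnt A n : ℝ)) =O[atTop] (fun n : ℕ => (n : ℝ) ^ (2 / (k : ℝ) - ε)) := by
  intro hO
  have hk0 : (0 : ℝ) < k := by
    have : 0 < k := by omega
    exact_mod_cast this
  set ε' : ℝ := min ε (1 / (k : ℝ)) with hε'
  have hε'0 : 0 < ε' := lt_min hε (by positivity)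
  have hβ0 : 0 ≤ 2 / (k : ℝ) - ε' := by
    have h1 : ε' ≤ 1 / (k : ℝ) := min_le_right _ _
    have h2 : 2 / (k : ℝ) = 2 * (1 / (k : ℝ)) := by ring
    have h3 : 0 < 1 / (k : ℝ) := by positivity
    linarith
  -- the counting function bound
  obtain ⟨C, hC⟩ := hO.bound
  obtain ⟨n₂, hn₂⟩ := eventually_atTop.1 hC
  have hc : ∀ n : ℕ, ((H510R2.Incr.AT A n).card : ℝ) ≤
      (|C| + n₂ + 3) * ((n : ℝ) + 1) ^ (2 / (k : ℝ) - ε') := by
    intro n
    have h1 : (1 : ℝ) ≤ ((n : ℝ) + 1) ^ (2 / (k : ℝ) - ε') :=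
      Real.one_le_rpow (by linarith [(Nat.cast_nonneg n : (0 : ℝ) ≤ n)]) hβ0
    have hCn : 0 ≤ |C| := abs_nonneg C
    have hn₂' : (0 : ℝ) ≤ n₂ := Nat.cast_nonneg _
    by_cases h2 : n₂ ≤ n ∧ 1 ≤ n
    · have h3 := hn₂ n h2.1
      rw [Real.norm_of_nonneg (Nat.cast_nonneg _), Real.norm_of_nonneg (by positivity)] at h3
      have h4 : (n : ℝ) ^ (2 / (k : ℝ) - ε) ≤ ((n : ℝ) + 1) ^ (2 / (k : ℝ) - ε') := by
        have hn1 : (1 : ℝ) ≤ n := by exact_mod_cast h2.2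
        calc (n : ℝ) ^ (2 / (k : ℝ) - ε) ≤ (n : ℝ) ^ (2 / (k : ℝ) - ε') := by
              apply Real.rpow_le_rpow_of_exponent_le hn1
              have : ε' ≤ ε := min_le_left _ _
              linarith
          _ ≤ _ := Real.rpow_le_rpow (by positivity) (by linarith) hβ0
      have h5 : ((H510R2.Incr.AT A n).card : ℝ) ≤ cnt A n + 1 := by exact_mod_cast card_AT A n
      have h6 : C * (n : ℝ) ^ (2 / (k : ℝ) - ε) ≤ |C| * ((n : ℝ) + 1) ^ (2 / (k : ℝ) - ε') :=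
        mul_le_mul (le_abs_self C) h4 (by positivity) hCn
      nlinarith
    · have h3 : n ≤ n₂ := by
        by_contra h4
        apply h2
        constructor <;> omega
      have h4 : ((H510R2.Incr.AT A n).card : ℝ) ≤ n + 1 := by exact_mod_cast card_AT' A n
      have h5 : (n : ℝ) ≤ n₂ := by exact_mod_cast h3
      nlinarith
  have hK : (0 : ℝ) < |C| + n₂ + 3 := by positivity
  have fin : ∀ (P : (Fin k → ℕ) → Prop), (∀ f, StrictMono f → P f) →
      (∃ K₀ : ℝ, 0 < K₀ ∧ H510R2.Incr.PB k P K₀) →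
      EvIncreasing (fun n => H510R2.Incr.rP k P A n) → False := by
    rintro P hP hPB ⟨n₀, hn₀⟩
    exact H510R2.Incr.core k hk P hP hPB A hA n₀ hn₀ ε' hε'0 (min_le_right _ _) _ hK hc
  rcases h with h | h | h
  · refine fin (fun _ => True) (fun _ _ => trivial) ⟨1, one_pos, H510R2.Incr.PB_true k hk⟩ ?_
    simpa only [r1_eq] using h
  · exact fin Monotone (fun f hf => hf.monotone) (H510R2.Incr.PB_mono k hk) h
  · exact fin StrictMono (fun f hf => hf) (H510R2.Incr.PB_strict k hk) h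

end Pool.Agent.Results.MP_885588_nt.GrowthTwoOverK
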